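import Pool.Agent.W221.ABC.Main7
import Pool.Agent.H353R2.Z2

/-! The number of the divisors of `abc`, for the abc-triples of bounded height with a small radical. -/

set_option autoImplicit false

open Finset

namespace Pool.Agent.R485.AN

open Pool.Agent.W221.ABC7 (Fx ExcB count_FxB excB_finite Fx_pos)
open Pool.Agent.H785R2.ABC (rad)

/-- `d` divides `abc` for a triple `a + b = c`, `a, b > 0` coprime, with `c ≤ d ^ A` and
`rad (abc) ≤ c ^ lam` -/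
def Bad (lam A : ℝ) : Set ℕ :=
  {d : ℕ | ∃ a b : ℕ, 0 < a ∧ 0 < b ∧ Nat.Coprime a b ∧ d ∣ a * b * (a + b) ∧
    ((a + b : ℕ) : ℝ) ≤ (d : ℝ) ^ A ∧ (rad (a * b * (a + b)) : ℝ) ≤ ((a + b : ℕ) : ℝ) ^ lam}

lemma bad_pos {lam A : ℝ} {d : ℕ} (h : d ∈ Bad lam A) : 0 < d := by
  obtain ⟨a, b, ha, hb, -, hd, -, -⟩ := h
  exact Nat.pos_of_dvd_of_pos hd (by positivity)

theorem fin_le (P : Set ℕ) (X : ℝ) : {d : ℕ | d ∈ P ∧ (d : ℝ) ≤ X}.Finite :=
  (Set.finite_Iic ⌊X⌋₊).subset fun _ hd => Nat.le_floor hd.2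

theorem count (lam A : ℝ) (hlam : 0 < lam) (hA : 0 < A) (ε : ℝ) (hε : 0 < ε) :
    ∃ C : ℝ, 0 ≤ C ∧ ∀ X : ℝ, 1 ≤ X →
      (({d : ℕ | d ∈ Bad lam A ∧ (d : ℝ) ≤ X}.ncard : ℕ) : ℝ) ≤ C * X ^ (A * Fx lam + ε) := by
  classical
  obtain ⟨C, hC⟩ := count_FxB 1 lam (ε / (2 * A)) hlam (by positivity)
  obtain ⟨C1, hC1, hdiv⟩ := H353.divisor_bound_real (ε / (6 * A)) (by positivity)
  refine ⟨|C| * C1, by positivity, fun X hX => ?_⟩
  have hX0 : (0 : ℝ) < X := by linarith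
  set Y : ℕ := ⌊X ^ A⌋₊ with hY
  have hY1 : 1 ≤ Y := Nat.le_floor (by
    rw [Nat.cast_one]
    exact Real.one_le_rpow hX hA.le)
  have hYX : (Y : ℝ) ≤ X ^ A := Nat.floor_le (by positivity)
  have hY0 : (0 : ℝ) ≤ Y := Nat.cast_nonneg _
  have h1 := hC Y hY1
  have hfin := excB_finite 1 lam Y
  have hF := Fx_pos lam hlam
  have hsub : {d : ℕ | d ∈ Bad lam A ∧ (d : ℝ) ≤ X} ⊆
      ((hfin.toFinset.biUnion fun t => (t.1 * t.2.1 * t.2.2).divisors : Finset ℕ) : Set ℕ) := by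
    rintro d ⟨⟨a, b, ha, hb, hab, hd, hht, hrad⟩, hdX⟩
    have hc : a + b ≤ Y := Nat.le_floor (hht.trans
      (Real.rpow_le_rpow (Nat.cast_nonneg _) hdX hA.le))
    have ht : (a, b, a + b) ∈ ExcB 1 lam Y := ⟨ha, hb, hab, rfl, hc, by
      simp only
      rw [one_mul]
      exact hrad⟩
    rw [Finset.mem_coe, Finset.mem_biUnion]
    refine ⟨(a, b, a + b), hfin.mem_toFinset.mpr ht, ?_⟩
    rw [Nat.mem_divisors]
    exact ⟨hd, by simp only; positivity⟩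
  have h2 : ({d : ℕ | d ∈ Bad lam A ∧ (d : ℝ) ≤ X}.ncard : ℕ) ≤
      ∑ t ∈ hfin.toFinset, (t.1 * t.2.1 * t.2.2).divisors.card := by
    refine (Set.ncard_le_ncard hsub (Finset.finite_toSet _)).trans ?_
    rw [Set.ncard_coe_finset]
    exact Finset.card_biUnion_le
  have h3 : ∀ t ∈ hfin.toFinset, (((t.1 * t.2.1 * t.2.2).divisors.card : ℕ) : ℝ) ≤
      C1 * X ^ (ε / 2) := by
    intro t ht
    rw [Set.Finite.mem_toFinset] at ht
    obtain ⟨ha, hb, -, hc, hcY, -⟩ := ht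
    have hne : t.1 * t.2.1 * t.2.2 ≠ 0 := by
      have : 0 < t.2.2 := by omega
      positivity
    refine (hdiv _ hne).trans (mul_le_mul_of_nonneg_left ?_ hC1.le)
    have e1 : ((t.1 * t.2.1 * t.2.2 : ℕ) : ℝ) ≤ (Y : ℝ) ^ 3 := by
      have : t.1 * t.2.1 * t.2.2 ≤ Y * Y * Y := by
        gcongr
        · omega
        · omega
      calc ((t.1 * t.2.1 * t.2.2 : ℕ) : ℝ) ≤ ((Y * Y * Y : ℕ) : ℝ) := by exact_mod_cast this
        _ = (Y : ℝ) ^ 3 := by push_cast; ring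
    have e2 : ((t.1 * t.2.1 * t.2.2 : ℕ) : ℝ) ≤ X ^ (A * 3) := by
      refine e1.trans ?_
      rw [Real.rpow_mul hX0.le]
      calc (Y : ℝ) ^ 3 ≤ (X ^ A) ^ 3 := pow_le_pow_left₀ hY0 hYX 3
        _ = (X ^ A) ^ (3 : ℝ) := by norm_cast
    calc ((t.1 * t.2.1 * t.2.2 : ℕ) : ℝ) ^ (ε / (6 * A)) ≤ (X ^ (A * 3)) ^ (ε / (6 * A)) :=
          Real.rpow_le_rpow (Nat.cast_nonneg _) e2 (by positivity)
      _ = X ^ (ε / 2) := by
          rw [← Real.rpow_mul hX0.le]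
          congr 1
          field_simp
          ring
  have hpow : (Y : ℝ) ^ (Fx lam + ε / (2 * A)) ≤ X ^ (A * Fx lam + ε / 2) := by
    calc (Y : ℝ) ^ (Fx lam + ε / (2 * A)) ≤ (X ^ A) ^ (Fx lam + ε / (2 * A)) :=
          Real.rpow_le_rpow hY0 hYX (by positivity)
      _ = X ^ (A * Fx lam + ε / 2) := by
          rw [← Real.rpow_mul hX0.le]
          congr 1
          field_simp
  have h4 : ((ExcB 1 lam Y).ncard : ℝ) ≤ |C| * X ^ (A * Fx lam + ε / 2) :=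
    h1.trans ((mul_le_mul_of_nonneg_right (le_abs_self C) (by positivity)).trans
            (mul_le_mul_of_nonneg_left hpow (abs_nonneg C)))
  calc (({d : ℕ | d ∈ Bad lam A ∧ (d : ℝ) ≤ X}.ncard : ℕ) : ℝ)
      ≤ ((∑ t ∈ hfin.toFinset, (t.1 * t.2.1 * t.2.2).divisors.card : ℕ) : ℝ) := by
        exact_mod_cast h2
    _ = ∑ t ∈ hfin.toFinset, (((t.1 * t.2.1 * t.2.2).divisors.card : ℕ) : ℝ) := by push_cast; rfl
    _ ≤ ∑ t ∈ hfin.toFinset, C1 * X ^ (ε / 2) := Finset.sum_le_sum h3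
    _ = ((ExcB 1 lam Y).ncard : ℝ) * (C1 * X ^ (ε / 2)) := by
        rw [Finset.sum_const, nsmul_eq_mul, Set.ncard_eq_toFinset_card _ hfin]
    _ ≤ (|C| * X ^ (A * Fx lam + ε / 2)) * (C1 * X ^ (ε / 2)) :=
        mul_le_mul_of_nonneg_right h4 (by positivity)
    _ = |C| * C1 * (X ^ (A * Fx lam + ε / 2) * X ^ (ε / 2)) := by ring
    _ = |C| * C1 * X ^ (A * Fx lam + ε) := by
        rw [← Real.rpow_add hX0]
        congr 2
        ring

end Pool.Agent.R485.AN
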