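import Pool.Agent.R479.DA.Lim

/-! Thin sets of integers in short windows around the powers of a real number. -/

set_option autoImplicit false

open Filter Topology Finset

namespace Pool.Agent.R485.AN

/-- the sums of `exp (-t v n)` converge for all `t > 0` -/
def Thin (v : ℕ → ℝ) : Prop := ∀ t : ℝ, 0 < t → Summable fun n : ℕ => Real.exp (-(t * v n))

lemma Thin.tendsto {v : ℕ → ℝ} (hv : Thin v) : Tendsto v atTop atTop := by
  have h1 := (hv 1 one_pos).tendsto_atTop_zero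
  have h2 : Tendsto (fun n => Real.exp (-(1 * v n))) atTop (𝓝[>] 0) :=
    tendsto_nhdsWithin_iff.2 ⟨h1, Eventually.of_forall fun n => Real.exp_pos _⟩
  have h3 := Real.tendsto_log_nhdsGT_zero.comp h2
  have h4 : Tendsto (fun n => - v n) atTop atBot := by
    refine h3.congr fun n => ?_
    simp
  have h5 := tendsto_neg_atBot_atTop.comp h4
  refine h5.congr fun n => ?_
  simp

/-- few `n` with `L ^ (v n) ≤ 2 X` -/
lemma few_n {v : ℕ → ℝ} (hv : Thin v) {L : ℝ} (hL : 1 < L) (ε : ℝ) (hε : 0 < ε) :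
    ∃ C : ℝ, 0 ≤ C ∧ ∀ X : ℝ, 1 ≤ X → {n : ℕ | L ^ (v n) ≤ 2 * X}.Finite ∧
      (({n : ℕ | L ^ (v n) ≤ 2 * X}.ncard : ℕ) : ℝ) ≤ C * X ^ ε := by
  classical
  have hlog : 0 < Real.log L := Real.log_pos hL
  have hL0 : 0 < L := by linarith
  have hsum := hv (ε * Real.log L) (by positivity)
  set S : ℝ := ∑' n : ℕ, Real.exp (-(ε * Real.log L * v n)) with hS
  have hS0 : 0 ≤ S := tsum_nonneg fun n => (Real.exp_pos _).le
  refine ⟨S * 2 ^ ε, by positivity, fun X hX => ?_⟩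
  have hX0 : 0 < X := by linarith
  have key : ∀ n : ℕ, L ^ (v n) ≤ 2 * X → (2 * X) ^ (-ε) ≤ Real.exp (-(ε * Real.log L * v n)) := by
    intro n hn
    have h1 : Real.exp (-(ε * Real.log L * v n)) = (L ^ (v n)) ^ (-ε) := by
      rw [← Real.rpow_mul hL0.le, Real.rpow_def_of_pos hL0]
      congr 1
      ring
    rw [h1]
    exact Real.rpow_le_rpow_of_nonpos (by positivity) hn (by linarith)
  have hpos : (0 : ℝ) < (2 * X) ^ (-ε) := by positivity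
  have hfin : {n : ℕ | L ^ (v n) ≤ 2 * X}.Finite := by
    have h1 := hsum.tendsto_cofinite_zero
    have h2 := h1.eventually (gt_mem_nhds hpos)
    rw [Filter.eventually_cofinite] at h2
    refine h2.subset fun n hn => ?_
    exact not_lt.2 (key n hn)
  refine ⟨hfin, ?_⟩
  rw [Set.ncard_eq_toFinset_card _ hfin]
  have h3 : (hfin.toFinset.card : ℝ) * (2 * X) ^ (-ε) ≤ S := by
    rw [← nsmul_eq_mul, ← Finset.sum_const]
    calc ∑ n ∈ hfin.toFinset, (2 * X) ^ (-ε)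
        ≤ ∑ n ∈ hfin.toFinset, Real.exp (-(ε * Real.log L * v n)) :=
          Finset.sum_le_sum fun n hn => key n (hfin.mem_toFinset.mp hn)
      _ ≤ S := hsum.sum_le_tsum _ fun n _ => (Real.exp_pos _).le
  have h4 : (2 * X) ^ (-ε) * (2 * X) ^ ε = 1 := by
    rw [← Real.rpow_add (by positivity), neg_add_cancel, Real.rpow_zero]
  calc (hfin.toFinset.card : ℝ) = (hfin.toFinset.card : ℝ) * (2 * X) ^ (-ε) * (2 * X) ^ ε := by
        rw [mul_assoc, h4, mul_one]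
    _ ≤ S * (2 * X) ^ ε := mul_le_mul_of_nonneg_right h3 (by positivity)
    _ = S * 2 ^ ε * X ^ ε := by
        rw [Real.mul_rpow (by norm_num) hX0.le]
        ring

/-- two numbers with powers close to `d` -/
lemma close {α β v R d θ : ℝ} (hα : 1 < α) (hαβ : α ≤ β) (hβR : β ≤ R) (hv : 1 ≤ v) (hθ0 : 0 ≤ θ)
    (hθ1 : θ ≤ 1) (hd : 0 < d)
    (h1 : |d - α ^ v| ≤ (α ^ v) ^ θ) (h2 : |d - β ^ v| ≤ (β ^ v) ^ θ) (h3 : β ^ v ≤ 2 * d)
    (h4 : d ≤ 2 * α ^ v) : β - α ≤ 8 * R * d ^ (θ - 1) := by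
  have hα0 : 0 < α := by linarith
  have hR0 : 0 < R := by linarith
  have hβ0 : 0 < β := by linarith
  have hav : 0 < α ^ v := by positivity
  have hbv : 0 < β ^ v := by positivity
  have hmono : α ^ v ≤ β ^ v := Real.rpow_le_rpow hα0.le hαβ (by linarith)
  -- Bernoulli
  have hb : α ^ v * (1 + v * ((β - α) / α)) ≤ β ^ v := by
    have e1 : -1 ≤ (β - α) / α := by
      have : 0 ≤ (β - α) / α := div_nonneg (by linarith) hα0.le
      linarith
    have e2 := one_add_mul_self_le_rpow_one_add e1 hv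
    have e3 : 1 + (β - α) / α = β / α := by field_simp; ring
    rw [e3, Real.div_rpow hβ0.le hα0.le, le_div_iff₀ hav] at e2
    linarith
  have h5 : α ^ v * ((β - α) / R) ≤ β ^ v - α ^ v := by
    have e1 : (β - α) / R ≤ v * ((β - α) / α) := by
      have f1 : (β - α) / R ≤ (β - α) / α :=
        div_le_div_of_nonneg_left (by linarith) hα0 (by linarith)
      have f2 : 0 ≤ (β - α) / α := div_nonneg (by linarith) hα0.le
      nlinarith
    have e2 := mul_le_mul_of_nonneg_left e1 hav.le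
    nlinarith
  have h6 : β ^ v - α ^ v ≤ 4 * d ^ θ := by
    have e1 : (β ^ v) ^ θ ≤ 2 * d ^ θ := by
      calc (β ^ v) ^ θ ≤ (2 * d) ^ θ := Real.rpow_le_rpow hbv.le h3 hθ0
        _ = 2 ^ θ * d ^ θ := Real.mul_rpow (by norm_num) hd.le
        _ ≤ 2 * d ^ θ := by
            apply mul_le_mul_of_nonneg_right _ (by positivity)
            calc (2 : ℝ) ^ θ ≤ 2 ^ (1 : ℝ) :=
                  Real.rpow_le_rpow_of_exponent_le (by norm_num) hθ1
              _ = 2 := Real.rpow_one 2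
    have e2 : (α ^ v) ^ θ ≤ (β ^ v) ^ θ := Real.rpow_le_rpow hav.le hmono hθ0
    have e3 := (abs_le.mp h1).2
    have e4 := (abs_le.mp h2).1
    linarith
  have h7 : d / 2 * ((β - α) / R) ≤ 4 * d ^ θ := by
    refine le_trans (mul_le_mul_of_nonneg_right (by linarith : d / 2 ≤ α ^ v) ?_) (h5.trans h6)
    exact div_nonneg (by linarith) hR0.le
  have h8 : d ^ (θ - 1) = d ^ θ / d := by rw [Real.rpow_sub hd, Real.rpow_one]
  rw [h8]
  have h9 : β - α = d / 2 * ((β - α) / R) * (2 * R / d) := by field_simp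
  rw [h9]
  calc d / 2 * ((β - α) / R) * (2 * R / d) ≤ 4 * d ^ θ * (2 * R / d) :=
        mul_le_mul_of_nonneg_right h7 (by positivity)
    _ = 8 * R * (d ^ θ / d) := by ring

/-- the windows with `α` in a fixed interval -/
theorem dim_int (P : Set ℕ) (hP : ∀ d ∈ P, 0 < d) {s θ : ℝ} (hs : 0 ≤ s) (hθ0 : 0 ≤ θ)
    (hθ : θ < 1)
    (hcount : ∀ ε : ℝ, 0 < ε → ∃ C : ℝ, 0 ≤ C ∧ ∀ X : ℝ, 1 ≤ X →
      (({d : ℕ | d ∈ P ∧ (d : ℝ) ≤ X}.ncard : ℕ) : ℝ) ≤ C * X ^ (s + ε))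
    {v : ℕ → ℝ} (hv : Thin v) {L R : ℝ} (hL : 1 < L) (hLR : L ≤ R) :
    dimH {α : ℝ | {p : ℕ × ℕ | (p.2 ∈ P ∧ 1 ≤ v p.1 ∧ L ^ (v p.1) ≤ 2 * p.2) ∧ L ≤ α ∧ α ≤ R ∧
      |(p.2 : ℝ) - α ^ (v p.1)| ≤ (α ^ (v p.1)) ^ θ ∧ α ^ (v p.1) ≤ 2 * p.2 ∧
      (p.2 : ℝ) ≤ 2 * α ^ (v p.1)}.Infinite} ≤ ENNReal.ofReal (s / (1 - θ)) := by
  classical
  have hθ' : 0 < 1 - θ := by linarith
  apply ENNReal.le_of_forall_pos_le_add
  intro ε hε _
  have hε' : (0 : ℝ) < ε := by exact_mod_cast hε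
  rw [← ENNReal.ofReal_coe_nnreal (p := ε), ← ENNReal.ofReal_add (by positivity) hε'.le]
  set D : ℝ := s / (1 - θ) + ε with hD
  have hD0 : 0 < D := by positivity
  have hDτ : D * (1 - θ) = s + ε * (1 - θ) := by
    rw [hD, add_mul, div_mul_cancel₀ _ hθ'.ne']
  set Q : Set (ℕ × ℕ) := {p | p.2 ∈ P ∧ 1 ≤ v p.1 ∧ L ^ (v p.1) ≤ 2 * p.2} with hQ
  set η : ℝ := ε * (1 - θ) / 4 with hη
  have hη0 : 0 < η := by positivity
  obtain ⟨C1, hC1, hcP⟩ := hcount η hη0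
  obtain ⟨C2, hC2, hcn⟩ := few_n hv hL η hη0
  set U : Q → Set ℝ := fun p => {α : ℝ | L ≤ α ∧ α ≤ R ∧
      |(p.1.2 : ℝ) - α ^ (v p.1.1)| ≤ (α ^ (v p.1.1)) ^ θ ∧ α ^ (v p.1.1) ≤ 2 * p.1.2 ∧
      (p.1.2 : ℝ) ≤ 2 * α ^ (v p.1.1)} with hU
  have hR0 : 0 < R := by linarith
  have hpos : ∀ p : Q, (0 : ℝ) < (p.1.2 : ℝ) := fun p => by exact_mod_cast hP _ p.2.1
  have hone : ∀ p : Q, (1 : ℝ) ≤ (p.1.2 : ℝ) := fun p => by
    exact_mod_cast Nat.succ_le_of_lt (hP _ p.2.1)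
  have h1 := Pool.Agent.R479.DA.dimH_limsup U (fun p => 8 * R * (p.1.2 : ℝ) ^ (θ - 1))
    (fun p => by
      have := hpos p
      positivity)
    (fun p => by
      apply Metric.ediam_le
      intro x hx y hy
      rw [edist_dist]
      apply ENNReal.ofReal_le_ofReal
      rw [Real.dist_eq]
      obtain ⟨x1, x2, x3, x4, x5⟩ := hx
      obtain ⟨y1, y2, y3, y4, y5⟩ := hy
      rcases le_total x y with h | h
      · rw [abs_sub_comm, abs_of_nonneg (by linarith)]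
        exact close (by linarith) h y2 p.2.2.1 hθ0 hθ.le (hpos p) x3 y3 y4 x5
      · rw [abs_of_nonneg (by linarith)]
        exact close (by linarith) h x2 p.2.2.1 hθ0 hθ.le (hpos p) y3 x3 x4 y5) hD0 (by
      have h2 := Pool.Agent.R479.DA.summable_heights (ι := Q) (fun p => (p.1.2 : ℝ)) hone
        (s := s + η + η) (p := D * (1 - θ)) (C := C1 * C2)
        (by rw [hDτ, hη]; nlinarith [mul_pos hε' hθ']) (by positivity) (by
          intro X hX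
          have hX0 : 0 < X := by linarith
          have hinj : Set.InjOn (Subtype.val : Q → ℕ × ℕ) {p | (p.1.2 : ℝ) ≤ X} :=
            Subtype.val_injective.injOn
          have himg : (Subtype.val : Q → ℕ × ℕ) '' {p | (p.1.2 : ℝ) ≤ X} ⊆
              {n : ℕ | L ^ (v n) ≤ 2 * X} ×ˢ {d : ℕ | d ∈ P ∧ (d : ℝ) ≤ X} := by
            rintro _ ⟨p, hp, rfl⟩
            refine ⟨?_, p.2.1, hp⟩
            refine p.2.2.2.trans ?_
            have : (p.1.2 : ℝ) ≤ X := hp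
            linarith
          have hfn := (hcn X hX).1
          have hfd : {d : ℕ | d ∈ P ∧ (d : ℝ) ≤ X}.Finite :=
            (Set.finite_Iic ⌊X⌋₊).subset fun _ hd => Nat.le_floor hd.2
          have hfp := hfn.prod hfd
          refine ⟨Set.Finite.of_finite_image (hfp.subset himg) hinj, ?_⟩
          rw [← hinj.ncard_image]
          have h3 := Set.ncard_le_ncard himg hfp
          rw [Set.ncard_prod] at h3
          calc (((Subtype.val : Q → ℕ × ℕ) '' {p | (p.1.2 : ℝ) ≤ X}).ncard : ℝ)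
              ≤ ((({n : ℕ | L ^ (v n) ≤ 2 * X}.ncard *
                {d : ℕ | d ∈ P ∧ (d : ℝ) ≤ X}.ncard : ℕ)) : ℝ) := by exact_mod_cast h3
            _ = ({n : ℕ | L ^ (v n) ≤ 2 * X}.ncard : ℝ) *
                ({d : ℕ | d ∈ P ∧ (d : ℝ) ≤ X}.ncard : ℝ) := by push_cast; rfl
            _ ≤ (C2 * X ^ η) * (C1 * X ^ (s + η)) :=
                mul_le_mul (hcn X hX).2 (hcP X hX) (Nat.cast_nonneg _) (by positivity)
            _ = C1 * C2 * (X ^ (s + η) * X ^ η) := by ring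
            _ = C1 * C2 * X ^ (s + η + η) := by rw [← Real.rpow_add hX0])
      refine (h2.mul_left ((8 * R) ^ D)).congr fun p => ?_
      have := hpos p
      have e : (8 * R * (p.1.2 : ℝ) ^ (θ - 1)) ^ D = (8 * R) ^ D * ((p.1.2 : ℝ) ^ (θ - 1)) ^ D :=
        Real.mul_rpow (by positivity) (by positivity)
      rw [e, ← Real.rpow_mul this.le]
      congr 2
      ring)
  refine le_trans (dimH_mono ?_) h1
  intro α hα
  simp only [Set.mem_ofPred_eq] at hα ⊢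
  have himg : (Subtype.val : Q → ℕ × ℕ) '' {p | α ∈ U p} =
      {p : ℕ × ℕ | (p.2 ∈ P ∧ 1 ≤ v p.1 ∧ L ^ (v p.1) ≤ 2 * p.2) ∧ L ≤ α ∧ α ≤ R ∧
      |(p.2 : ℝ) - α ^ (v p.1)| ≤ (α ^ (v p.1)) ^ θ ∧ α ^ (v p.1) ≤ 2 * p.2 ∧
      (p.2 : ℝ) ≤ 2 * α ^ (v p.1)} := by
    ext p
    constructor
    · rintro ⟨u, hu, rfl⟩
      exact ⟨u.2, hu⟩
    · rintro ⟨hp, hpα⟩
      exact ⟨⟨p, hp⟩, hpα, rfl⟩
  rw [← himg] at hα
  exact fun hfin => hα (hfin.image _)

/-- **Thin sets of integers and the powers of a real number.** -/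
theorem dim_pow (P : Set ℕ) (hP : ∀ d ∈ P, 0 < d) {s θ : ℝ} (hs : 0 ≤ s) (hθ0 : 0 ≤ θ)
    (hθ : θ < 1)
    (hcount : ∀ ε : ℝ, 0 < ε → ∃ C : ℝ, 0 ≤ C ∧ ∀ X : ℝ, 1 ≤ X →
      (({d : ℕ | d ∈ P ∧ (d : ℝ) ≤ X}.ncard : ℕ) : ℝ) ≤ C * X ^ (s + ε))
    {v : ℕ → ℝ} (hv : Thin v) :
    ∃ E : Set ℝ, dimH E ≤ ENNReal.ofReal (s / (1 - θ)) ∧ ∀ α : ℝ, 1 < α → α ∉ E →
      ∃ n₀ : ℕ, ∀ n : ℕ, n₀ ≤ n → ∀ d : ℕ, |(d : ℝ) - α ^ (v n)| ≤ (α ^ (v n)) ^ θ → d ∉ P := by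
  classical
  refine ⟨⋃ K : ℕ, {α : ℝ | {p : ℕ × ℕ | (p.2 ∈ P ∧ 1 ≤ v p.1 ∧
      (1 + 1 / ((K : ℝ) + 1)) ^ (v p.1) ≤ 2 * p.2) ∧ (1 + 1 / ((K : ℝ) + 1)) ≤ α ∧
      α ≤ ((K : ℝ) + 2) ∧
      |(p.2 : ℝ) - α ^ (v p.1)| ≤ (α ^ (v p.1)) ^ θ ∧ α ^ (v p.1) ≤ 2 * p.2 ∧
      (p.2 : ℝ) ≤ 2 * α ^ (v p.1)}.Infinite}, ?_, ?_⟩
  · rw [dimH_iUnion]
    refine iSup_le fun K => ?_
    have hK : (0 : ℝ) ≤ K := Nat.cast_nonneg K
    refine dim_int P hP hs hθ0 hθ hcount hv ?_ ?_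
    · have : (0 : ℝ) < 1 / ((K : ℝ) + 1) := by positivity
      linarith
    · have : 1 / ((K : ℝ) + 1) ≤ 1 := by
        rw [div_le_one (by positivity)]
        linarith
      linarith
  · intro α hα hαE
    obtain ⟨K, hK⟩ := exists_nat_ge (max (1 / (α - 1)) α)
    have hK1 := (le_max_left _ _).trans hK
    have hK2 := (le_max_right _ _).trans hK
    have hα1 : 0 < α - 1 := by linarith
    have hK0 : (0 : ℝ) ≤ K := Nat.cast_nonneg K
    have hfin : ¬ {p : ℕ × ℕ | (p.2 ∈ P ∧ 1 ≤ v p.1 ∧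
      (1 + 1 / ((K : ℝ) + 1)) ^ (v p.1) ≤ 2 * p.2) ∧ (1 + 1 / ((K : ℝ) + 1)) ≤ α ∧
      α ≤ ((K : ℝ) + 2) ∧
      |(p.2 : ℝ) - α ^ (v p.1)| ≤ (α ^ (v p.1)) ^ θ ∧ α ^ (v p.1) ≤ 2 * p.2 ∧
      (p.2 : ℝ) ≤ 2 * α ^ (v p.1)}.Infinite := fun h => hαE (Set.mem_iUnion.2 ⟨K, h⟩)
    rw [Set.not_infinite] at hfin
    -- large `n`
    have hvt := hv.tendsto
    have h1 := hvt.eventually_ge_atTop 1
    have h2 : ∀ᶠ n in atTop, Real.log 2 / ((1 - θ) * Real.log α) ≤ v n :=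
      hvt.eventually_ge_atTop _
    obtain ⟨n1, hn1⟩ := eventually_atTop.1 (h1.and h2)
    refine ⟨max n1 ((hfin.toFinset.image Prod.fst).sup id + 1), fun n hn d hd hdP => ?_⟩
    obtain ⟨hv1, hv2⟩ := hn1 n ((le_max_left _ _).trans hn)
    have hα0 : 0 < α := by linarith
    have hav : 0 < α ^ (v n) := by positivity
    have hlog : 0 < Real.log α := Real.log_pos hα
    have hθ' : 0 < 1 - θ := by linarith
    have h3 : 2 ≤ (α ^ (v n)) ^ (1 - θ) := by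
      rw [← Real.rpow_mul hα0.le, Real.rpow_def_of_pos hα0]
      have e1 : Real.log 2 ≤ Real.log α * (v n * (1 - θ)) := by
        rw [div_le_iff₀ (by positivity)] at hv2
        nlinarith
      calc (2 : ℝ) = Real.exp (Real.log 2) := (Real.exp_log (by norm_num)).symm
        _ ≤ _ := Real.exp_le_exp.2 e1
    have h4 : (α ^ (v n)) ^ θ ≤ α ^ (v n) / 2 := by
      have e1 : (α ^ (v n)) ^ θ * (α ^ (v n)) ^ (1 - θ) = α ^ (v n) := by
        rw [← Real.rpow_add hav]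
        rw [show θ + (1 - θ) = 1 by ring, Real.rpow_one]
      have e2 : (0 : ℝ) < (α ^ (v n)) ^ θ := by positivity
      nlinarith
    have h5 := (abs_le.mp hd).1
    have h6 := (abs_le.mp hd).2
    have h7 : α ^ (v n) ≤ 2 * (d : ℝ) := by linarith
    have h8 : (d : ℝ) ≤ 2 * α ^ (v n) := by linarith
    have h9 : (1 + 1 / ((K : ℝ) + 1)) ≤ α := by
      have e1 : 1 / ((K : ℝ) + 1) ≤ α - 1 := by
        rw [div_le_iff₀ (by positivity)]
        rw [div_le_iff₀ hα1] at hK1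
        nlinarith
      linarith
    have h10 : (1 + 1 / ((K : ℝ) + 1)) ^ (v n) ≤ 2 * (d : ℝ) :=
      (Real.rpow_le_rpow (by positivity) h9 (by linarith)).trans h7
    have hmem : (n, d) ∈ hfin.toFinset := by
      rw [Set.Finite.mem_toFinset]
      exact ⟨⟨hdP, hv1, h10⟩, h9, by linarith, hd, h7, h8⟩
    have h11 : n ≤ (hfin.toFinset.image Prod.fst).sup id :=
      Finset.le_sup (f := id) (Finset.mem_image_of_mem Prod.fst hmem)
    have h12 := (le_max_right _ _).trans hn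
    omega

end Pool.Agent.R485.AN
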